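import Pool.Agent.Helper85_CYD.StG

/-! # CYD, module KRO: Kronecker's theorem -/

set_option autoImplicit false

open Polynomial IsLocalRing

namespace Pool.Agent.CYD

/-- An element of all valuation subrings is an algebraic integer. -/
lemma isIntegral_of_forall_mem {K : Type} [Field K] {y : K}
    (hy : ∀ A : ValuationSubring K, y ∈ A) : IsIntegral ℤ y := by
  have h1 : y ∈ (⨅ V : {V : ValuationSubring K // (∅ : Set K) ⊆ V.toSubring},
      V.1.toSubring) := by
    rw [Subring.mem_iInf]
    intro V
    exact hy V.1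
  rw [iInf_valuationSubring_superset] at h1
  have h2 : IsIntegral (Subring.closure (∅ : Set K)) y := h1
  have : Algebra.IsIntegral ℤ (Subring.closure (∅ : Set K)) := by
    constructor
    rintro ⟨r, hr⟩
    have hr' := hr
    rw [Subring.closure_empty, Subring.mem_bot] at hr'
    obtain ⟨n, hn⟩ := hr'
    have h3 : (⟨r, hr⟩ : Subring.closure (∅ : Set K)) =
        algebraMap ℤ (Subring.closure (∅ : Set K)) n := by
      apply Subtype.ext
      show r = _
      simp [hn]
    rw [h3]
    exact isIntegral_algebraMap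
  exact isIntegral_trans y h2

theorem kro : KroStmt := by
  intro n hn K _ _ _ y z hz hy hφ
  have : NeZero n := ⟨hn.pos.ne'⟩
  obtain ⟨m, hm, h1⟩ := NumberField.Embeddings.pow_eq_one_of_norm_eq_one K ℂ
    (isIntegral_of_forall_mem hy) hφ
  have h2 : IsOfFinOrder y := isOfFinOrder_iff_pow_eq_one.2 ⟨m, hm, h1⟩
  obtain ⟨r, -, hr⟩ := hz.exists_pow_or_neg_mul_pow_of_isOfFinOrder hn h2
  rcases hr with hr | hr
  · exact ⟨1, r, Or.inl rfl, by rw [hr]; simp⟩
  · exact ⟨-1, r, Or.inr rfl, by rw [hr]; simp⟩

end Pool.Agent.CYD
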