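import Pool.Agent.Helper85_CYD.St2

/-! # CYD, module LGM: quotients with constant logarithmic derivative -/

set_option autoImplicit false

open Polynomial IsLocalRing

namespace Pool.Agent.CYD

lemma natDegree_eq_zero_of_derivative_eq_zero_of_lt {L : Type} [Field L] (p : ℕ) [CharP L p]
    {x : L[X]} (hd : derivative x = 0) (hx : x.natDegree < p) : x.natDegree = 0 := by
  by_contra hne
  obtain ⟨n, hn⟩ := Nat.exists_eq_succ_of_ne_zero hne
  have h1 : (derivative x).coeff n = 0 := by rw [hd, coeff_zero]
  rw [coeff_derivative] at h1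
  have h2 : x.coeff (n + 1) ≠ 0 := by
    have h3 : x.coeff x.natDegree ≠ 0 := by
      rw [coeff_natDegree]
      intro h
      rw [leadingCoeff_eq_zero] at h
      rw [h, natDegree_zero] at hne
      exact hne rfl
    rwa [hn] at h3
  have h4 : ((n + 1 : ℕ) : L) = 0 := by
    push_cast
    exact (mul_eq_zero.1 h1).resolve_left h2
  rw [CharP.cast_eq_zero_iff L p] at h4
  have h5 := Nat.le_of_dvd (Nat.succ_pos n) h4
  omega

theorem lgm : LgmStmt := by
  intro L _ p _ x y hp hx hy hLog
  obtain ⟨c, hc⟩ := hLog
  have h2 : x.coeff 0 ≠ 0 → y.coeff 0 ≠ 0 → derivative x * y = x * derivative y := by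
    intro hx0 hy0
    have h3 := congrArg (fun f : L[X] => f.coeff 0) hc
    simp only [mul_coeff_zero, coeff_X_zero, zero_mul, coeff_C_zero] at h3
    have h4 : c = 0 := by
      rcases mul_eq_zero.1 h3.symm with h | h
      · exact h
      · exact absurd h (mul_ne_zero hx0 hy0)
    rw [h4, C_0, zero_mul] at hc
    rcases mul_eq_zero.1 hc with h | h
    · exact absurd h X_ne_zero
    · exact sub_eq_zero.1 h
  refine ⟨?_, h2, ?_⟩
  · intro a ha
    obtain ⟨x₁, hx1, hx2⟩ := exists_eq_pow_rootMultiplicity_mul_and_not_dvd x hx a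
    obtain ⟨y₁, hy1, hy2⟩ := exists_eq_pow_rootMultiplicity_mul_and_not_dvd y hy a
    set s := rootMultiplicity a x with hs
    set t := rootMultiplicity a y with ht
    have hxa : eval a x₁ ≠ 0 := fun h => hx2 (dvd_iff_isRoot.2 h)
    have hya : eval a y₁ ≠ 0 := fun h => hy2 (dvd_iff_isRoot.2 h)
    have hder : ∀ (k : ℕ) (f : L[X]), (X - C a) * derivative ((X - C a) ^ k * f) =
        (X - C a) ^ k * ((k : L[X]) * f + (X - C a) * derivative f) := by
      intro k f
      rw [derivative_mul, derivative_X_sub_C_pow]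
      rcases k with _ | k
      · simp
      · rw [Nat.add_sub_cancel, pow_succ]
        simp only [map_natCast]
        ring
    have h3 : (X - C a) ^ (s + t) * (X * (((s : L[X]) - (t : L[X])) * (x₁ * y₁) +
        (X - C a) * (derivative x₁ * y₁ - x₁ * derivative y₁))) =
        (X - C a) ^ (s + t) * (C c * (X - C a) * (x₁ * y₁)) := by
      have e1 := hder s x₁
      have e2 := hder t y₁
      rw [← hx1] at e1
      rw [← hy1] at e2
      have e3 : (X - C a) * (X * (derivative x * y - x * derivative y)) =
          (X - C a) * (C c * (x * y)) := by rw [hc]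
      have e4 : (X - C a) * (X * (derivative x * y - x * derivative y)) =
          X * ((X - C a) * derivative x * y - x * ((X - C a) * derivative y)) := by ring
      rw [e4, e1, e2] at e3
      rw [pow_add]
      calc _ = X * ((X - C a) ^ s * ((s : L[X]) * x₁ + (X - C a) * derivative x₁) *
            ((X - C a) ^ t * y₁) -
          (X - C a) ^ s * x₁ * ((X - C a) ^ t * ((t : L[X]) * y₁ + (X - C a) * derivative y₁))) := by
            ring
        _ = X * ((X - C a) ^ s * ((s : L[X]) * x₁ + (X - C a) * derivative x₁) * y -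
          x * ((X - C a) ^ t * ((t : L[X]) * y₁ + (X - C a) * derivative y₁))) := by
            rw [← hx1, ← hy1]
        _ = (X - C a) * (C c * (x * y)) := e3
        _ = _ := by
          rw [hx1, hy1]
          ring
    have h4 := mul_left_cancel₀ (pow_ne_zero _ (X_sub_C_ne_zero a)) h3
    have h5 := congrArg (eval a) h4
    simp only [eval_mul, eval_X, eval_add, eval_sub, eval_natCast, eval_C, sub_self, zero_mul,
      mul_zero, add_zero] at h5
    have h6 : (s : L) - (t : L) = 0 := by
      rcases mul_eq_zero.1 h5 with h | h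
      · exact absurd h ha
      · rcases mul_eq_zero.1 h with h | h
        · exact h
        · exact absurd h (mul_ne_zero hxa hya)
    exact (CharP.natCast_eq_natCast L p).1 (sub_eq_zero.1 h6)
  · intro hx0 hy0 hdx hdy
    have h3 := h2 hx0 hy0
    classical
    obtain ⟨d, x₁, y₁, hcop, hx1, hy1⟩ :
        ∃ d x₁ y₁ : L[X], IsCoprime x₁ y₁ ∧ x = d * x₁ ∧ y = d * y₁ := by
      let _ := EuclideanDomain.gcdMonoid L[X]
      refine ⟨GCDMonoid.gcd x y, x / GCDMonoid.gcd x y, y / GCDMonoid.gcd x y,
        isCoprime_div_gcd_div_gcd hy, ?_, ?_⟩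
      · exact (EuclideanDomain.mul_div_cancel' (gcd_ne_zero_of_left hx)
          (gcd_dvd_left x y)).symm
      · exact (EuclideanDomain.mul_div_cancel' (gcd_ne_zero_of_left hx)
          (gcd_dvd_right x y)).symm
    have hd0 : d ≠ 0 := fun h => hx (by rw [hx1, h, zero_mul])
    have hx10 : x₁ ≠ 0 := fun h => hx (by rw [hx1, h, mul_zero])
    have hy10 : y₁ ≠ 0 := fun h => hy (by rw [hy1, h, mul_zero])
    have h4 : derivative x₁ * y₁ = x₁ * derivative y₁ := by
      have h5 : d ^ 2 * (derivative x₁ * y₁) = d ^ 2 * (x₁ * derivative y₁) := by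
        have h6 : derivative x * y - x * derivative y =
            d ^ 2 * (derivative x₁ * y₁ - x₁ * derivative y₁) := by
          rw [hx1, hy1, derivative_mul, derivative_mul]
          ring
        rw [h3, sub_self] at h6
        linear_combination -h6
      exact mul_left_cancel₀ (pow_ne_zero _ hd0) h5
    have hdeg : ∀ f : L[X], derivative f ≠ 0 → f ∣ derivative f → False := by
      intro f hf1 hf2
      have h5 := degree_le_of_dvd hf2 hf1
      have hf0 : f ≠ 0 := fun h => hf1 (by rw [h, derivative_zero])
      have h6 := degree_derivative_lt hf0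
      exact absurd h5 (not_le.2 h6)
    have hx1d : derivative x₁ = 0 := by
      by_contra hne
      refine hdeg x₁ hne ?_
      refine hcop.dvd_of_dvd_mul_right ?_
      rw [h4]
      exact dvd_mul_right _ _
    have hy1d : derivative y₁ = 0 := by
      by_contra hne
      refine hdeg y₁ hne ?_
      refine hcop.symm.dvd_of_dvd_mul_left ?_
      rw [← h4]
      exact dvd_mul_left _ _
    have hxn : x₁.natDegree ≤ x.natDegree := by
      rw [hx1, natDegree_mul hd0 hx10]
      omega
    have hyn : y₁.natDegree ≤ y.natDegree := by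
      rw [hy1, natDegree_mul hd0 hy10]
      omega
    have hx1n := natDegree_eq_zero_of_derivative_eq_zero_of_lt p hx1d (by omega)
    have hy1n := natDegree_eq_zero_of_derivative_eq_zero_of_lt p hy1d (by omega)
    rw [natDegree_eq_zero] at hx1n hy1n
    obtain ⟨α, hα⟩ := hx1n
    obtain ⟨β, hβ⟩ := hy1n
    have hα0 : α ≠ 0 := fun h => hx10 (by rw [← hα, h, C_0])
    have hβ0 : β ≠ 0 := fun h => hy10 (by rw [← hβ, h, C_0])
    refine ⟨α / β, div_ne_zero hα0 hβ0, ?_⟩
    rw [hx1, hy1, ← hα, ← hβ]
    have h7 : C (α / β) * (d * C β) = d * (C (α / β) * C β) := by ring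
    rw [h7, ← C_mul, div_mul_cancel₀ _ hβ0]

end Pool.Agent.CYD
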