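import Pool.Agent.Helper85_CYD.StG

/-! # CYD, module RAM: `p` is `(w - 1)^(p - 1)` times a unit -/

set_option autoImplicit false

open Polynomial IsLocalRing

namespace Pool.Agent.CYD

theorem ram : RamStmt := by
  intro K _ _ A p w hp hpm hw
  have : Fact p.Prime := ⟨hp⟩
  have hp0 : (p : ResidueField A) = 0 := by
    have h := (residue_eq_zero_iff (p : A)).2 hpm
    rwa [map_natCast] at h
  have : CharP (ResidueField A) p := (CharP.charP_iff_prime_eq_zero hp).2 hp0
  have hr : residue A w = 1 := by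
    have h1 : (residue A w - 1) ^ p = 0 := by
      rw [sub_pow_char, one_pow, ← map_pow, hw.pow_eq_one, map_one, sub_self]
    exact sub_eq_zero.1 (pow_eq_zero_iff hp.ne_zero |>.1 h1)
  have hk : ∀ k : ℕ, ∃ t : A, w ^ k - 1 = (w - 1) * t ∧ residue A t = (k : ResidueField A) := by
    intro k
    refine ⟨∑ i ∈ Finset.range k, w ^ i, ?_, ?_⟩
    · rw [mul_geom_sum]
    · rw [map_sum]
      simp [hr]
  refine ⟨?_, ?_, hk⟩
  · rw [← residue_eq_zero_iff, map_sub, hr, map_one, sub_self]
  · choose t ht1 ht2 using hk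
    have hp1 : p - 1 + 1 = p := Nat.sub_add_cancel hp.one_le
    have h1 := IsPrimitiveRoot.prod_one_sub_pow_eq_order (R := A) (n := p - 1) (μ := w)
      (by rwa [hp1])
    have h2 : ((p - 1 : ℕ) : A) + 1 = (p : A) := by
      rw [← Nat.cast_succ, Nat.succ_eq_add_one, hp1]
    rw [h2] at h1
    have h3 : ∏ k ∈ Finset.range (p - 1), (1 - w ^ (k + 1)) =
        (w - 1) ^ (p - 1) * ∏ k ∈ Finset.range (p - 1), (- t (k + 1)) := by
      have h4 : ∀ k ∈ Finset.range (p - 1), (1 - w ^ (k + 1)) = (w - 1) * (- t (k + 1)) := by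
        intro k _
        rw [mul_neg, ← ht1]
        ring
      rw [Finset.prod_congr rfl h4, Finset.prod_mul_distrib, Finset.prod_const,
        Finset.card_range]
    have h5 : IsUnit (∏ k ∈ Finset.range (p - 1), (- t (k + 1))) := by
      rw [IsUnit.prod_iff]
      intro k hk
      rw [IsUnit.neg_iff, ← residue_ne_zero_iff_isUnit, ht2]
      intro h0
      rw [CharP.cast_eq_zero_iff (ResidueField A) p] at h0
      have h6 := Nat.le_of_dvd (Nat.succ_pos k) h0
      rw [Finset.mem_range] at hk
      omega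
    rw [h3] at h1
    obtain ⟨u, hu⟩ := h5
    rw [← hu] at h1
    exact Associated.symm ⟨u, h1⟩

end Pool.Agent.CYD
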