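import Pool.Agent.Helper85_CYD.StG
import Pool.Agent.Helper85_CYD.St1

/-! # CYD, module S3: the exponents above `p` vanish, `q = 3` -/

set_option autoImplicit false

open Polynomial IsLocalRing

namespace Pool.Agent.CYD

/-- A primitive root modulo `p`, seen in any field of characteristic `p`. -/
lemma exists_primitive_root_nat (p : ℕ) (hp : p.Prime) : ∃ k : ℕ, ¬ p ∣ k ∧
    ∀ (L : Type) [Field L] [CharP L p] (e : ℤ), (k : L) ^ e = 1 → ((p : ℤ) - 1) ∣ e := by
  have : Fact p.Prime := ⟨hp⟩
  obtain ⟨g, hg⟩ := IsCyclic.exists_generator (α := (ZMod p)ˣ)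
  have hval : ((g : ZMod p).val : ZMod p) = g := ZMod.natCast_zmod_val _
  refine ⟨(g : ZMod p).val, ?_, ?_⟩
  · intro h
    rw [← ZMod.natCast_eq_zero_iff, hval] at h
    exact g.ne_zero h
  · intro L _ _ e he
    have h1 : (((g : ZMod p).val : ℕ) : L) = ZMod.castHom (dvd_refl p) L (g : ZMod p) := by
      rw [← hval, map_natCast, hval]
    rw [h1, ← map_zpow₀] at he
    have h2 : ((g : ZMod p)) ^ e = 1 := by
      apply (ZMod.castHom (dvd_refl p) L).injective
      rw [he, map_one]
    have h3 : g ^ e = 1 := by
      apply Units.ext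
      rw [Units.val_zpow_eq_zpow_val, h2, Units.val_one]
    have h4 := orderOf_dvd_iff_zpow_eq_one.2 h3
    rw [orderOf_eq_card_of_forall_mem_zpowers hg, Nat.card_eq_fintype_card,
      ZMod.card_units] at h4
    have h5 : ((p - 1 : ℕ) : ℤ) = (p : ℤ) - 1 := by
      have := hp.one_le
      push_cast [Nat.cast_sub this]
      rfl
    rwa [h5] at h4

theorem s3 (hSqr : SqrStmt) (hVal : ValStmt) (hFro : FroStmt) : S3Stmt := by
  intro n p g h F hp3 hp7 hp13 K _ _ _ A c w hL
  have hp : p.Prime := F.hp
  have : Fact p.Prime := ⟨hp⟩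
  have hp0 : (p : ResidueField A) = 0 := by
    have h := (residue_eq_zero_iff (p : A)).2 hL.hm
    rwa [map_natCast] at h
  have hch : CharP (ResidueField A) p := (CharP.charP_iff_prime_eq_zero hp).2 hp0
  set a := residue A c with ha
  have ha3 : a ^ 3 = 1 := by rw [ha, ← map_pow, hL.hc.pow_eq_one, map_one]
  have hpmod : p % 3 = 1 ∨ p % 3 = 2 := by
    have h1 : ¬ 3 ∣ p := by
      intro h
      have := (Nat.prime_dvd_prime_iff_eq Nat.prime_three hp).1 h
      omega
    omega
  rcases hpmod with hpm | hpm
  · -- `p = 1 mod 3`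
    obtain ⟨k, hk1, hk2⟩ := exists_primitive_root_nat p hp
    have hcK : IsPrimitiveRoot (c : K) 3 :=
      hL.hc.map_of_injective (f := A.subtype) (fun _ _ h => Subtype.ext h)
    have hwK : IsPrimitiveRoot (w : K) p :=
      hL.hw.map_of_injective (f := A.subtype) (fun _ _ h => Subtype.ext h)
    obtain ⟨s, l, hs, hsl⟩ := hSqr n p 3 g h F K (c : K) (w : K) hcK hwK k hk1
    have h1 := hsl A c w rfl rfl hL 1 (by norm_num)
    rw [pow_one, one_mul] at h1
    set U := ex A g 3 c with hU
    have h2 : (k : ResidueField A) ^ (12 * U) = 1 := by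
      have h3 : ((k : ResidueField A) ^ (2 * U)) ^ 6 = 1 := by
        rw [h1, mul_pow, ← pow_mul]
        have h4 : residue A c ^ (l * 6) = 1 := by
          have h5 : l * 6 = 3 * (l * 2) := by ring
          rw [h5, pow_mul, ← ha, ha3, one_pow]
        rw [h4, mul_one]
        rcases hs with rfl | rfl <;> norm_num
      rw [← zpow_natCast, ← zpow_mul] at h3
      have h6 : 2 * U * ((6 : ℕ) : ℤ) = 12 * U := by push_cast; ring
      rwa [h6] at h3
    have h3 := hk2 (ResidueField A) (12 * U) h2
    have h26 : (26 : ResidueField A) ≠ 0 := by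
      intro h0
      have h4 : ((26 : ℕ) : ResidueField A) = 0 := by exact_mod_cast h0
      rw [CharP.cast_eq_zero_iff (ResidueField A) p] at h4
      have h5 : p ∣ 2 * 13 := by simpa using h4
      rcases (Nat.Prime.dvd_mul hp).1 h5 with h6 | h6
      · have := Nat.le_of_dvd (by norm_num) h6
        omega
      · exact hp13 ((Nat.prime_dvd_prime_iff_eq hp (by norm_num)).1 h6)
    have hv := (hVal n p 3 g h F K A c w hL).2 (by
        intro h0
        apply h26
        have h4 : a = 3 := by
          rw [← ha] at h0
          push_cast at h0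
          linear_combination h0
        have h5 := ha3
        rw [h4] at h5
        linear_combination h5) (by
        intro h0
        apply h26
        have h4 : a ^ 2 = 3 := by
          rw [← ha] at h0
          push_cast at h0
          norm_num at h0
          linear_combination h0
        have h5 : (a ^ 2) ^ 3 = 1 := by
          rw [← pow_mul, show 2 * 3 = 3 * 2 from rfl, pow_mul, ha3, one_pow]
        rw [h4] at h5
        linear_combination h5)
    have h12 : ¬ ((p : ℤ) - 1) ∣ 12 := by
      intro hd
      have hle := Int.le_of_dvd (by norm_num) hd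
      have hp13' : p ≤ 13 := by omega
      interval_cases p <;> first
        | omega
        | exact absurd hp (by norm_num)
        | (revert hd; norm_num)
    rcases hv with hv | hv | hv
    · exact hv
    · exfalso
      rw [← hU] at hv
      rw [hv] at h3
      apply h12
      have h4 : (12 : ℤ) = 12 * ((p : ℤ) - 1) - 12 * ((p : ℤ) - 2) := by ring
      rw [h4]
      exact dvd_sub (dvd_mul_left _ _) h3
    · exfalso
      rw [← hU] at hv
      rw [hv] at h3
      apply h12
      have h4 : (12 : ℤ) = 12 * ((p : ℤ) - 1) + 12 * (-((p : ℤ) - 2)) := by ring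
      rw [h4]
      exact dvd_add (dvd_mul_left _ _) h3
  · -- `p = 2 mod 3`
    unfold ex mu
    have h1 : residue A (c ^ (3 - 1)) = residue A c ^ p := by
      rw [map_pow, ← ha]
      have h2 : p = 3 * (p / 3) + 2 := by omega
      conv_rhs => rw [h2, pow_add, pow_mul, ha3, one_pow, one_mul]
    rw [h1, hFro (ResidueField A) p g (residue A c), sub_self]

end Pool.Agent.CYD
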